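import Pool.Agent.Helper92.Ru.GoalsV
import Pool.Agent.Helper27.Ru.SubAdd

/-! The subspace theorem step (V6) of MP_d1d051_nt. -/

set_option autoImplicit false

open NumberField MvPolynomial

namespace Pool.Agent.Helper77.Ru

open Pool.Agent.Helper92.Ru

/-- a proper subspace of `k^N` is killed by a nonzero linear form -/
theorem exists_form {k : Type} [Field k] {N : ℕ} (W : Submodule k (Fin N → k)) (hW : W ≠ ⊤) :
    ∃ c : Fin N → k, c ≠ 0 ∧ ∀ w ∈ W, ∑ b, c b * w b = 0 := by
  classical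
  obtain ⟨f, hf, hWf⟩ := Submodule.exists_le_ker_of_lt_top W (lt_top_iff_ne_top.2 hW)
  have hrep : ∀ w : Fin N → k, f w = ∑ b, f (Pi.single b 1) * w b := by
    intro w
    have hw : w = ∑ b, w b • Pi.single b (1 : k) := by
      ext j
      simp [Finset.sum_apply, Pi.single_apply]
    conv_lhs => rw [hw]
    rw [map_sum]
    refine Finset.sum_congr rfl fun b _ => ?_
    rw [map_smul, smul_eq_mul, mul_comm]
  refine ⟨fun b => f (Pi.single b 1), ?_, ?_⟩
  · intro h0
    apply hf
    ext w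
    have : ∀ b, f (Pi.single b 1) = 0 := fun b => congrFun h0 b
    simp [this]
  · intro w hw
    rw [← hrep w]
    exact hWf hw

theorem permB_one {k : Type} [Field k] (d n : ℕ) (f : BB k d n) :
    permB k d n (1 : Equiv.Perm (Fin d)) f = f := by
  have : (fun p : Fin d × Fin (n + 1) => ((1 : Equiv.Perm (Fin d)) p.1, p.2)) = id := by
    funext p; simp
  unfold permB
  rw [this, rename_id]
  rfl

theorem mem_JJid_eval {k : Type} [Field k] [NumberField k] {T : Finset (FinitePlace k)}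
    {d n q : ℕ} {𝒬 : Set (Pt k T d n q)} {f : BB k d n} (hf : f ∈ JJid 𝒬)
    {P : Pt k T d n q} (hP : P ∈ 𝒬) : P.E f = 0 := by
  have := hf P hP 1
  rwa [permB_one] at this

theorem subStep : WMain → SSTX → EvalBound → LinEx → SubStep := by
  classical
  intro hW hS hE hL k _ _ T d n q a C Cf hd hn hGP Lam mu hLam hsupp hsum htot 𝒬 hne hOK hprox
  -- reindexing
  let e : SP k T ≃ Fin (Fintype.card (SP k T)) := Fintype.equivFin (SP k T)
  have hreidx : ∀ F : SP k T → ℕ, ∑ v : Fin (Fintype.card (SP k T)), F (e.symm v) = ∑ v, F v :=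
    fun F => Equiv.sum_comp e.symm F
  obtain ⟨m0, hm0⟩ := hW k d n q a hd hn hGP Lam (Fintype.card (SP k T))
    (fun v => mu (e.symm v)) (fun v => hsupp _)
    (fun i => by rw [hreidx (fun v => mu v i)]; exact hsum i)
    (by rw [hreidx (fun v => ∑ i, mu v i)]; exact htot)
  obtain ⟨m, hm⟩ : ∃ m, m = max m0 1 := ⟨_, rfl⟩
  have hm1 : 1 ≤ m := hm ▸ le_max_right _ _
  have hmm0 : m0 ≤ m := hm ▸ le_max_left _ _
  let J : Ideal (BB k d n) := JJid 𝒬
  obtain ⟨N, hN⟩ : ∃ N, N =
    Module.finrank k ((Rm k d n m).map (Submodule.mkQ (J.restrictScalars k))) := ⟨_, rfl⟩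
  obtain ⟨D⟩ := hL k d n q a (SP k T) mu m J
  rw [← hN] at D
  have hWm := hm0 m hmm0 _ (Submodule.mkQ (J.restrictScalars k))
  rw [← hN, hreidx (fun v => Ssum d a (Submodule.mkQ (J.restrictScalars k)) (mu v) m)] at hWm
  -- `1 ≤ N`
  have hq : 0 < q := by
    rcases Nat.eq_zero_or_pos q with h | h
    · subst h
      simp at htot
    · exact h
  have hN1 : 1 ≤ N := by
    by_contra hlt
    have hN0 : N = 0 := by omega
    have : FiniteDimensional k (Rm k d n m) := Pool.Agent.Helper27.Ru.finite_Rm m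
    have hbot : (Rm k d n m).map (Submodule.mkQ (J.restrictScalars k)) = ⊥ := by
      apply Submodule.finrank_eq_zero.1
      rw [← hN, hN0]
    let i0 : Fin q := ⟨0, hq⟩
    have hmem : Nl d (a i0) ^ m ∈ Rm k d n m := by
      have := Pool.Agent.Helper27.Ru.Rm_pow (Pool.Agent.Helper27.Ru.Nl_mem (d := d) (a i0)) m
      rwa [mul_one] at this
    have h1 : Submodule.mkQ (J.restrictScalars k) (Nl d (a i0) ^ m) ∈
        (Rm k d n m).map (Submodule.mkQ (J.restrictScalars k)) :=
      Submodule.mem_map_of_mem hmem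
    rw [hbot, Submodule.mem_bot, Submodule.mkQ_apply, Submodule.Quotient.mk_eq_zero] at h1
    obtain ⟨P, hP⟩ := hne
    have h2 : P.E (Nl d (a i0) ^ m) = 0 := mem_JJid_eval (𝒬 := 𝒬) h1 hP
    obtain ⟨y, hy, hy0, _⟩ := (hOK P hP).norm i0
    rw [map_pow, hy] at h2
    have h3 := (pow_eq_zero_iff (by omega : m ≠ 0)).1 h2
    rw [map_eq_zero] at h3
    exact hy0 h3
  -- evaluation bounds
  have hEv := fun (v : SP k T) (s : Fin N) => hE k T d n q a C Cf v (mu v) Lam m (D.t v s) hLam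
    (D.g v s) (D.g_mem v s)
  choose Cg hCg hCgP using hEv
  obtain ⟨C0, hC0⟩ : ∃ C0 : ℝ, C0 = ∑ v, ∑ s, Cg v s + 1 := ⟨_, rfl⟩
  have hCgs : ∀ v, 0 ≤ ∑ s, Cg v s := fun v => Finset.sum_nonneg fun s _ => (hCg v s).le
  have hC0pos : 0 < C0 := by
    have := Finset.sum_nonneg (s := Finset.univ) (f := fun v => ∑ s, Cg v s)
      (fun v _ => hCgs v)
    rw [hC0]; linarith
  have hCgle : ∀ v s, Cg v s ≤ C0 := by
    intro v s
    have h1 : Cg v s ≤ ∑ s, Cg v s :=
      Finset.single_le_sum (f := fun s => Cg v s) (fun s _ => (hCg v s).le) (Finset.mem_univ s)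
    have h2 : ∑ s, Cg v s ≤ ∑ v, ∑ s, Cg v s :=
      Finset.single_le_sum (f := fun v => ∑ s, Cg v s) (fun v _ => hCgs v) (Finset.mem_univ v)
    rw [hC0]; linarith
  -- exponents
  have hmR : (0 : ℝ) < m := by exact_mod_cast hm1
  have hLR : (0 : ℝ) < Lam := by exact_mod_cast hLam
  have hdR : (0 : ℝ) < d := by exact_mod_cast hd
  have hnR : (0 : ℝ) < n := by exact_mod_cast hn
  have hNR : (0 : ℝ) < N := by exact_mod_cast hN1
  have htsum : ∑ v, ∑ s, D.t v s =
      ∑ v, Ssum d a (Submodule.mkQ (J.restrictScalars k)) (mu v) m :=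
    Finset.sum_congr rfl fun v _ => D.t_sum v
  rw [← htsum] at hWm
  have hWR : (8 * ((d : ℝ) * n) * Lam + 1) * m * N ≤ 8 * ((d : ℝ) * n) * ∑ v, ∑ s, (D.t v s : ℝ) := by
    exact_mod_cast hWm
  have hc : (N : ℝ) < ∑ v : SP k T, ∑ s : Fin N, (D.t v s : ℝ) / (Lam * m) := by
    have h1 : ∑ v : SP k T, ∑ s : Fin N, (D.t v s : ℝ) / (Lam * m) =
        (∑ v, ∑ s, (D.t v s : ℝ)) / (Lam * m) := by
      rw [Finset.sum_div]
      refine Finset.sum_congr rfl fun v _ => ?_
      rw [Finset.sum_div]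
    rw [h1, lt_div_iff₀ (mul_pos hLR hmR)]
    have h2 : 0 < 8 * ((d : ℝ) * n) := by positivity
    have h3 : 8 * ((d : ℝ) * n) * (N * (Lam * m)) < 8 * ((d : ℝ) * n) * ∑ v, ∑ s, (D.t v s : ℝ) := by
      refine lt_of_lt_of_le ?_ hWR
      have : 0 < (m : ℝ) * N := mul_pos hmR hNR
      nlinarith
    exact lt_of_mul_lt_mul_left h3 h2.le
  obtain ⟨H0', F', hF', hSST⟩ := hS k T N hN1 D.A D.A_det
    (fun v s => (D.t v s : ℝ) / (Lam * m)) hc C0 hC0pos
  -- the forms
  have hform : ∀ W : Submodule k (Fin N → k), ∃ c : Fin N → k, W ≠ ⊤ →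
      (c ≠ 0 ∧ ∀ w ∈ W, ∑ b, c b * w b = 0) := by
    intro W
    by_cases h : W = ⊤
    · exact ⟨0, fun h' => absurd h h'⟩
    · obtain ⟨c, hc⟩ := exists_form W h
      exact ⟨c, fun _ => hc⟩
  choose cW hcW using hform
  refine ⟨m, max H0' 1, F'.image (fun W => ∑ b, cW W b • D.bas b), ?_, ?_⟩
  · intro f hf
    obtain ⟨W, hWF, rfl⟩ := Finset.mem_image.1 hf
    refine ⟨Submodule.sum_mem _ fun b _ => Submodule.smul_mem _ _ (D.bas_mem b), ?_⟩
    intro hJ
    exact (hcW W (hF' W hWF)).1 (D.bas_ind _ hJ)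
  · intro P hP hH
    have hPOK := hOK P hP
    have hv := fun b : Fin N => hPOK.val m (D.bas b) (D.bas_mem b)
    choose y hy hyS hyF using hv
    have hHm : (∏ v, P.X v ^ m) * ∏ᶠ w : FinitePlace k, (qw w : ℝ) ^ ((m : ℤ) * P.z w) =
        P.H ^ m := by
      unfold Pt.H
      rw [mul_pow, Finset.prod_pow]
      congr 1
      rw [finprod_pow]
      · refine finprod_congr fun w => ?_
        rw [mul_comm, zpow_mul, zpow_natCast]
      · refine hPOK.z_fin.subset fun w hw => ?_
        simp only [Function.mem_mulSupport] at hw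
        simp only [Function.mem_support]
        intro h0
        apply hw
        rw [h0, zpow_zero]
    have hH1 : 1 ≤ P.H := hPOK.H_one
    have hHpos : 0 < P.H := by linarith
    have hcomb : ∀ c : Fin N → k, P.E (∑ b, c b • D.bas b) =
        algebraMap k (AlgebraicClosure k) (∑ b, c b * y b) := by
      intro c
      rw [map_sum, map_sum]
      refine Finset.sum_congr rfl fun b _ => ?_
      rw [map_smul, hy b, map_mul, Algebra.smul_def]
    have hbound : ∀ v s, nS v ((D.A v).mulVec y s) ≤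
        C0 * P.X v ^ m * (P.H ^ m) ^ (-((D.t v s : ℝ) / (Lam * m))) := by
      intro v s
      obtain ⟨y', hy', hb'⟩ := hCgP v s P hPOK (hprox P hP v)
      have h1 : P.E (D.g v s - ∑ b, D.A v s b • D.bas b) = 0 :=
        mem_JJid_eval (𝒬 := 𝒬) (D.g_eq v s) hP
      rw [map_sub, hcomb, hy', sub_eq_zero] at h1
      have h2 : y' = ∑ b, D.A v s b * y b := (algebraMap k (AlgebraicClosure k)).injective h1
      have h3 : (D.A v).mulVec y s = y' := by
        rw [h2]; rfl
      rw [h3]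
      refine hb'.trans ?_
      have h4 : (P.H ^ m) ^ (-((D.t v s : ℝ) / (Lam * m))) = P.H ^ (-(D.t v s : ℝ) / Lam) := by
        rw [← Real.rpow_natCast, ← Real.rpow_mul hHpos.le]
        congr 1
        field_simp
      rw [h4]
      have hX := hPOK.X_pos v
      have h5 : 0 ≤ P.X v ^ m * P.H ^ (-(D.t v s : ℝ) / Lam) := by positivity
      have := mul_le_mul_of_nonneg_right (hCgle v s) h5
      nlinarith [this]
    obtain ⟨W, hWF, hyW⟩ := hSST y (fun v => P.X v ^ m) (fun w => (m : ℤ) * P.z w) (P.H ^ m)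
      (fun v => pow_pos (hPOK.X_pos v) m)
      (hPOK.z_fin.subset fun w hw => by
        simp only [Function.mem_support] at hw ⊢
        intro h0
        apply hw
        rw [h0, mul_zero])
      (fun w hw => by simp [hPOK.z_T w hw])
      (fun w hw b => hyF b (D.bas_int b) w hw)
      hHm.symm
      (by
        have h1 : P.H ≤ P.H ^ m := by
          calc P.H = P.H ^ 1 := (pow_one _).symm
            _ ≤ P.H ^ m := pow_le_pow_right₀ hH1 hm1
        have h2 : H0' ≤ P.H := (le_max_left _ _).trans hH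
        linarith)
      hbound
    refine ⟨_, Finset.mem_image_of_mem _ hWF, ?_⟩
    rw [hcomb, (hcW W (hF' W hWF)).2 y hyW, map_zero]

end Pool.Agent.Helper77.Ru
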